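import Mathlib

set_option autoImplicit false

namespace Pool.Agent.Helper33.OC

theorem eq_range {G : Type} [CommGroup G] [Finite G] [IsCyclic G] (A : Subgroup G) :
    A = (powMonoidHom A.index : G →* G).range := by
  symm
  apply Subgroup.eq_of_le_of_card_ge
  · rintro x ⟨y, rfl⟩
    exact A.pow_index_mem y
  · rw [IsCyclic.card_powMonoidHom_range]
    have h : (Nat.card G).gcd A.index = A.index := Nat.gcd_eq_right A.index_dvd_card
    rw [h]
    have h2 := A.card_mul_index
    have h3 : 0 < A.index := Nat.pos_of_ne_zero Subgroup.index_ne_zero_of_finite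
    rw [← h2, Nat.mul_div_cancel _ h3]

theorem le_range {G : Type} [CommGroup G] [Finite G] [IsCyclic G] (A : Subgroup G) (r : ℕ)
    (hr : r ∣ A.index) : A ≤ (powMonoidHom r : G →* G).range := by
  intro x hx
  rw [eq_range A] at hx
  obtain ⟨y, rfl⟩ := hx
  obtain ⟨k, hk⟩ := hr
  refine ⟨y ^ k, ?_⟩
  simp only [powMonoidHom_apply]
  rw [hk, mul_comm, pow_mul]

theorem sup_index {G : Type} [CommGroup G] [Finite G] [IsCyclic G] (A B : Subgroup G) :
    (A ⊔ B).index = Nat.gcd A.index B.index := by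
  apply Nat.dvd_antisymm
  · exact Nat.dvd_gcd (Subgroup.index_dvd_of_le le_sup_left) (Subgroup.index_dvd_of_le le_sup_right)
  · have h1 := le_range A _ (Nat.gcd_dvd_left A.index B.index)
    have h2 := le_range B _ (Nat.gcd_dvd_right A.index B.index)
    have h3 := Subgroup.index_dvd_of_le (sup_le h1 h2)
    rw [IsCyclic.index_powMonoidHom_range] at h3
    have h4 : (Nat.card G).gcd (Nat.gcd A.index B.index) = Nat.gcd A.index B.index :=
      Nat.gcd_eq_right ((Nat.gcd_dvd_left _ _).trans A.index_dvd_card)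
    rwa [h4] at h3

theorem invC {G : Type} [CommGroup G] (A B : Subgroup G) (m : G → ℤ)
    (hA : ∀ c ∈ A, ∀ x, m (c * x) = m x) (hB : ∀ c ∈ B, ∀ x, m (c * x) = m x) :
    ∀ c ∈ A ⊔ B, ∀ x, m (c * x) = m x := by
  intro c hc x
  rw [Subgroup.mem_sup] at hc
  obtain ⟨y, hy, z, hz, rfl⟩ := hc
  rw [mul_assoc, hA y hy, hB z hz]

theorem sum_fib {G : Type} [CommGroup G] [Fintype G] (C : Subgroup G) [Fintype (G ⧸ C)]
    (f : G ⧸ C → ℤ) :
    (C.index : ℤ) * ∑ x : G, f (QuotientGroup.mk x) = (Fintype.card G : ℤ) * ∑ q, f q := by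
  classical
  have h1 : ∑ x : G, f (QuotientGroup.mk x) = ∑ q : G ⧸ C, (Nat.card C : ℤ) * f q := by
    rw [← Finset.sum_fiberwise Finset.univ (fun x : G => (QuotientGroup.mk x : G ⧸ C))]
    apply Finset.sum_congr rfl
    intro q _
    rw [Finset.sum_congr rfl (g := fun _ => f q)]
    · rw [Finset.sum_const, nsmul_eq_mul]
      congr 1
      obtain ⟨g, rfl⟩ := QuotientGroup.mk_surjective q
      norm_cast
      rw [Nat.card_eq_fintype_card, ← Finset.card_univ]
      symm
      apply Finset.card_bij (fun (c : C) _ => g * (c : G))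
      · intro c _
        simp only [Finset.mem_filter, Finset.mem_univ, true_and]
        exact QuotientGroup.mk_mul_of_mem g c.2
      · intro c _ d _ hcd
        exact Subtype.ext (mul_left_cancel hcd)
      · intro x hx
        simp only [Finset.mem_filter, Finset.mem_univ, true_and] at hx
        refine ⟨⟨g⁻¹ * x, ?_⟩, Finset.mem_univ _, ?_⟩
        · exact QuotientGroup.eq.1 hx.symm
        · simp
    · intro x hx
      simp only [Finset.mem_filter, Finset.mem_univ, true_and] at hx
      rw [hx]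
  rw [h1, ← Finset.mul_sum, ← mul_assoc]
  congr 1
  have := C.card_mul_index
  rw [← Nat.card_eq_fintype_card, ← this]
  push_cast
  ring

theorem var_bound {I : Type} [Fintype I] (f : I → ℤ) :
    ((Fintype.card I : ℤ) * ∑ i, f i ^ 2 - (∑ i, f i) ^ 2 = 0) ∨
      (2 ≤ (Fintype.card I : ℤ) ∧ (Fintype.card I : ℤ) - 1 ≤
        (Fintype.card I : ℤ) * ∑ i, f i ^ 2 - (∑ i, f i) ^ 2) := by
  classical
  have key : ∑ j, ∑ i, (f i - f j) ^ 2 =
      2 * ((Fintype.card I : ℤ) * ∑ i, f i ^ 2 - (∑ i, f i) ^ 2) := by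
    have h1 : ∀ j, ∑ i, (f i - f j) ^ 2 =
        ∑ i, f i ^ 2 - 2 * (∑ i, f i) * f j + (Fintype.card I : ℤ) * f j ^ 2 := by
      intro j
      have : ∀ i, (f i - f j) ^ 2 = f i ^ 2 - 2 * f i * f j + f j ^ 2 := by intro i; ring
      simp only [this]
      rw [Finset.sum_add_distrib, Finset.sum_sub_distrib, ← Finset.sum_mul, ← Finset.mul_sum,
        Finset.sum_const, nsmul_eq_mul, Finset.card_univ]
    simp only [h1]
    rw [Finset.sum_add_distrib, Finset.sum_sub_distrib, ← Finset.mul_sum, ← Finset.mul_sum,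
      Finset.sum_const, nsmul_eq_mul, Finset.card_univ]
    ring
  by_cases hc : ∀ i j, f i = f j
  · left
    have h0 : ∑ j, ∑ i, (f i - f j) ^ 2 = 0 := by
      apply Finset.sum_eq_zero
      intro j _
      apply Finset.sum_eq_zero
      intro i _
      rw [hc i j]
      ring
    rw [key] at h0
    linarith
  · right
    push Not at hc
    obtain ⟨a, b, hab⟩ := hc
    have hne : a ≠ b := fun h => hab (by rw [h])
    have hpt : ∀ i, 1 ≤ (f i - f a) ^ 2 + (f i - f b) ^ 2 := by
      intro i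
      have : f i - f a ≠ 0 ∨ f i - f b ≠ 0 := by
        by_contra h
        push Not at h
        apply hab
        linarith [h.1, h.2]
      rcases this with h | h
      · have h3 : 0 < (f i - f a) ^ 2 := by positivity
        have h4 : 0 ≤ (f i - f b) ^ 2 := sq_nonneg _
        linarith
      · have h3 : 0 < (f i - f b) ^ 2 := by positivity
        have h4 : 0 ≤ (f i - f a) ^ 2 := sq_nonneg _
        linarith
    have hrow : ∀ j, 1 ≤ ∑ i, (f i - f j) ^ 2 := by
      intro j
      have h1 : ∑ i ∈ ({a, b} : Finset I), (f i - f j) ^ 2 ≤ ∑ i, (f i - f j) ^ 2 :=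
        Finset.sum_le_sum_of_subset_of_nonneg (Finset.subset_univ _) (fun i _ _ => sq_nonneg _)
      rw [Finset.sum_pair hne] at h1
      have h2 := hpt j
      have h3 : (f j - f a) ^ 2 = (f a - f j) ^ 2 := by ring
      have h4 : (f j - f b) ^ 2 = (f b - f j) ^ 2 := by ring
      linarith
    have hab2 : (Fintype.card I : ℤ) ≤ ∑ i, (f i - f a) ^ 2 + ∑ i, (f i - f b) ^ 2 := by
      rw [← Finset.sum_add_distrib]
      calc (Fintype.card I : ℤ) = ∑ _i : I, (1 : ℤ) := by simp
        _ ≤ _ := Finset.sum_le_sum (fun i _ => hpt i)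
    have hcard : 2 ≤ Fintype.card I := by
      rw [← Finset.card_pair hne]
      exact Finset.card_le_univ _
    have hrest : ((Fintype.card I : ℤ) - 2) ≤
        ∑ j ∈ (Finset.univ \ ({a, b} : Finset I)), ∑ i, (f i - f j) ^ 2 := by
      calc ((Fintype.card I : ℤ) - 2) = ∑ _j ∈ (Finset.univ \ ({a, b} : Finset I)), (1 : ℤ) := by
            rw [Finset.sum_const, nsmul_eq_mul, mul_one, Finset.card_sdiff_of_subset
              (Finset.subset_univ _), Finset.card_pair hne, Finset.card_univ]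
            rw [Nat.cast_sub hcard]
            norm_num
        _ ≤ _ := Finset.sum_le_sum (fun j _ => hrow j)
    have htot : ∑ j, ∑ i, (f i - f j) ^ 2 =
        ∑ j ∈ (Finset.univ \ ({a, b} : Finset I)), ∑ i, (f i - f j) ^ 2 +
          (∑ i, (f i - f a) ^ 2 + ∑ i, (f i - f b) ^ 2) := by
      rw [← Finset.sum_sdiff (Finset.subset_univ ({a, b} : Finset I)), Finset.sum_pair hne]
    rw [key] at htot
    constructor
    · exact_mod_cast hcard
    · linarith

theorem cmm (G : Type) [CommGroup G] [Fintype G] [IsCyclic G] (A B : Subgroup G)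
    (m : G → ℤ) (hA : ∀ c ∈ A, ∀ x, m (c * x) = m x) (hB : ∀ c ∈ B, ∀ x, m (c * x) = m x) :
    ∃ F Q2 : ℤ, (Nat.gcd A.index B.index : ℤ) * ∑ x, m x = (Fintype.card G : ℤ) * F ∧
    (Nat.gcd A.index B.index : ℤ) * ∑ x, m x ^ 2 = (Fintype.card G : ℤ) * Q2 ∧
    ((Nat.gcd A.index B.index : ℤ) * Q2 - F ^ 2 = 0 ∨
      2 ≤ (Nat.gcd A.index B.index : ℤ) ∧ (Nat.gcd A.index B.index : ℤ) - 1 ≤
        (Nat.gcd A.index B.index : ℤ) * Q2 - F ^ 2) := by
  classical
  have hC := invC A B m hA hB
  have hidx := sup_index A B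
  let C : Subgroup G := A ⊔ B
  let f : G ⧸ C → ℤ := Quotient.lift m (by
    intro x y hxy
    have h := QuotientGroup.leftRel_apply.1 hxy
    have h2 := hC _ h x
    rw [← h2]
    congr 1
    rw [mul_comm, mul_inv_cancel_left])
  have hf : ∀ x, f (QuotientGroup.mk x) = m x := fun x => rfl
  have hcard : (Fintype.card (G ⧸ C) : ℤ) = (Nat.gcd A.index B.index : ℤ) := by
    rw [← hidx]
    norm_cast
    rw [← Nat.card_eq_fintype_card]
    rfl
  have h1 := sum_fib C f
  have h2 := sum_fib C (fun q => f q ^ 2)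
  have h3 := var_bound f
  simp only [hf] at h1 h2
  refine ⟨∑ q, f q, ∑ q, f q ^ 2, ?_, ?_, ?_⟩
  · rw [← hidx]
    exact h1
  · rw [← hidx]
    exact h2
  · rw [hcard] at h3
    exact h3

end Pool.Agent.Helper33.OC
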