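import Pool.Agent.Helper89.OC.St2
import Pool.Agent.Helper33.OC.Core

set_option autoImplicit false

namespace Pool.Agent.Helper33.OC

open Pool.Agent.Helper89.OC

theorem hCMM : StCMM := fun G _ _ _ A B m hA hB => cmm G A B m hA hB

end Pool.Agent.Helper33.OC
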